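import Pool.Agent.W169.HF.AsmB
import Pool.Agent.U4.JD.Conv
import Pool.Agent.H986R2.K4.SAB
import Pool.Agent.H986R2.K4.LL
import Pool.Agent.H986R2.K4.LR
import Pool.Agent.H986R2.K4.Tay

/-!
# Derivatives: the backward local theorem

If the derivatives of order `n ∈ [(k + 3e/8) ℓ, (k + e/2) ℓ]` have no zeros to the right of the line in a
window and `f` has the size `exp (ℓ Re u + o(ℓ))` to the right of `k`, then `f` has no zeros to the
right of `k + e`.  The abstract converse is `Pool.Agent.U4.JD.absconv`.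
-/

set_option autoImplicit false

open Complex Set MeasureTheory Filter Topology
open scoped ComplexConjugate

namespace Pool.Agent.U427.DG

open Pool.Agent.W169.HF

/-- no zeros to the right of `1/2` -/
def H1 (R : ℝ) (f : ℂ → ℂ) : Prop := ∀ u : ℂ, 1 / 2 < u.re → |u.im| ≤ R → f u ≠ 0

/-- the size to the right of `a` -/
def H2 (a κ R ℓ G : ℝ) (f : ℂ → ℂ) : Prop := ∀ u : ℂ, a ≤ u.re → u.re ≤ 1 / 2 → |u.im| ≤ R →
  ‖f u‖ ≤ G * Real.exp (ℓ * u.re + κ * ℓ)

/-- no zeros of the derivatives to the right of the line -/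
def H3 (a b R ℓ : ℝ) (f : ℂ → ℂ) : Prop := ∀ n : ℕ, a * ℓ ≤ n → (n : ℝ) ≤ b * ℓ → ∀ u : ℂ, 0 < u.re →
  |u.im| ≤ R → iteratedDeriv n f u ≠ 0

/-- the local statement on the set `A` -/
def St (K ϑ0 k e : ℝ) (A : Set ℝ) : Prop := ∃ κ1 R ℓ0 : ℝ, 0 < κ1 ∧ 11 ≤ R ∧
  ∀ (ℓ G : ℝ) (f : ℂ → ℂ), ℓ0 ≤ ℓ → UD K ϑ0 ℓ G f → H1 R f → H2 (k + e / 2) κ1 R ℓ G f →
    H3 (k + 3 * e / 8) (k + e / 2) R ℓ f → ∀ x ∈ A, x ≤ 1 / 2 → f (x : ℂ) ≠ 0

lemma st_near {K ϑ0 k e w : ℝ} (hK : 1 ≤ K) (hϑ : 1 / 2 ≤ ϑ0) (hϑ' : ϑ0 ≤ 2) (hk : 0 ≤ k) (he : 0 < e)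
    (hw : k + e ≤ w) (hw' : w ≤ 1 / 2) : ∃ ε : ℝ, 0 < ε ∧ St K ϑ0 k e (Metric.ball w ε) := by
  obtain ⟨s, ν, hs1, hs2, hν, hν1, habs⟩ := Pool.Agent.U4.JD.absconv Pool.Agent.H986R2.K4.sab
    Pool.Agent.H986R2.K4.ll Pool.Agent.H986R2.K4.lr Pool.Agent.H986R2.K4.tay (k + 3 * e / 8)
    (k + e / 2) w (by positivity) (by linarith) (by linarith) (by linarith) hw'
  obtain ⟨ε, η1, L0, hε, hη1, hL0, habs⟩ := habs 12 1 (by norm_num) one_pos
  obtain ⟨R2, ℓ2, hR2, HP⟩ := prof_all K ϑ0 (1 / 2) (1 / 4) η1 11 hK hϑ hϑ' (by norm_num) hϑ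
    (by norm_num) (by norm_num) hη1 (by norm_num)
  obtain ⟨κ1, R3, ℓ3, hκ1, hR3, HC⟩ := lcx_all K ϑ0 s ν 1 hK hϑ hϑ' (by linarith) (by linarith) hν le_rfl
  refine ⟨ε, hε, κ1, max R2 (max R3 11), max (max L0 (8 / e)) (max ℓ2 (max ℓ3 (243 * K))), hκ1,
    (le_max_right _ _).trans (le_max_right _ _), ?_⟩
  intro ℓ G f hℓ ud h1 h2 h3 x hx hx1 h0
  have hL : L0 ≤ ℓ := (le_max_left _ _).trans ((le_max_left _ _).trans hℓ)
  have hLe : 8 / e ≤ ℓ := (le_max_right _ _).trans ((le_max_left _ _).trans hℓ)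
  have hL2 : ℓ2 ≤ ℓ := (le_max_left _ _).trans ((le_max_right _ _).trans hℓ)
  have hL3 : ℓ3 ≤ ℓ := (le_max_left _ _).trans ((le_max_right _ _).trans ((le_max_right _ _).trans hℓ))
  have hLK : 243 * K ≤ ℓ := (le_max_right _ _).trans ((le_max_right _ _).trans ((le_max_right _ _).trans hℓ))
  have hℓ0 : 0 < ℓ := by linarith
  have hRa : R2 ≤ max R2 (max R3 11) := le_max_left _ _
  have hRb : R3 ≤ max R2 (max R3 11) := (le_max_left _ _).trans (le_max_right _ _)
  have hRc : 11 ≤ max R2 (max R3 11) := (le_max_right _ _).trans (le_max_right _ _)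
  have pf := HP ℓ G f hL2 ud fun u a b => h1 u a (b.trans hRa)
  have cx := HC ℓ G f hL3 ud fun u a b => by
    have := h2 u (by linarith) (by linarith) (b.trans hRb)
    rwa [a] at this
  obtain ⟨n, hn⟩ : ∃ n : ℕ, n = ⌈(k + 3 * e / 8) * ℓ⌉₊ := ⟨_, rfl⟩
  have hn1 : (k + 3 * e / 8) * ℓ ≤ n := by rw [hn]; exact Nat.le_ceil _
  have hn2 : (n : ℝ) ≤ (k + e / 2) * ℓ := by
    have h4 : (n : ℝ) < (k + 3 * e / 8) * ℓ + 1 := by rw [hn]; exact Nat.ceil_lt_add_one (by positivity)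
    rw [div_le_iff₀ he] at hLe
    nlinarith
  refine habs ℓ G x n f hL ud.hG hn1 hn2 ?_ hx1 ?_
  · rw [Metric.mem_ball, Real.dist_eq] at hx
    exact hx.le
  · exact
      { diff := ud.slow.1
        P1 := fun u a b => by
          rw [mul_comm]
          refine (ud.up u).trans (mul_le_mul_of_nonneg_left (Real.exp_le_exp.2 ?_) ud.hG.le)
          have h4 : max |u.re| ϑ0 ≤ 11 := max_le a (by linarith)
          have h5 : ‖u‖ ^ 2 ≤ 242 := by
            rw [← Complex.normSq_eq_norm_sq, Complex.normSq_apply]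
            have h6 := abs_le.1 a
            have h7 := abs_le.1 b
            nlinarith
          have h6 : ℓ * max |u.re| ϑ0 ≤ ℓ * 11 := mul_le_mul_of_nonneg_left h4 hℓ0.le
          have h7 : K * (1 + ‖u‖ ^ 2) ≤ K * 243 := mul_le_mul_of_nonneg_left (by linarith) (by linarith)
          linarith
        P2 := fun u a b c => by
          have h4 := pf.low u (by linarith) b c
          have h5 := pf.upp u (by rw [abs_of_nonneg (by linarith)]; exact b) c
          have h6 := pf.der u (by linarith) b c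
          rw [abs_of_nonneg (by linarith), max_eq_left (by linarith)] at h5
          refine ⟨fun h7 => ?_, h6, ?_, ?_⟩
          · rw [h7, norm_zero] at h4
            have : 0 < G * Real.exp (ℓ * u.re - η1 * ℓ) := mul_pos ud.hG (Real.exp_pos _)
            linarith
          · rw [mul_comm]
            convert h4 using 3
            ring
          · rw [mul_comm]
            convert h5 using 3
            ring
        P3 := fun u a b => by
          have h4 := cx u a b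
          rw [mul_comm]
          convert h4 using 3
          ring
        P4 := fun u a b c => h3 n hn1 hn2 u a (c.trans (by linarith))
        P5 := by
          rw [h0, norm_zero]
          exact mul_nonneg (Real.exp_pos _).le ud.hG.le }

/-- the backward local theorem -/
theorem bwd_loc {K ϑ0 k e : ℝ} (hK : 1 ≤ K) (hϑ : 1 / 2 ≤ ϑ0) (hϑ' : ϑ0 ≤ 2) (hk : 0 ≤ k) (he : 0 < e) :
    St K ϑ0 k e (Icc (k + e) (1 / 2)) := by
  refine isCompact_Icc.induction_on (p := St K ϑ0 k e) ?_ ?_ ?_ ?_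
  · exact ⟨1, 11, 0, one_pos, le_rfl, fun _ _ _ _ _ _ _ _ x hx => absurd hx (notMem_empty x)⟩
  · rintro A B hAB ⟨κ1, R, ℓ0, h1, h2, h⟩
    exact ⟨κ1, R, ℓ0, h1, h2, fun ℓ G f a b c d e x hx => h ℓ G f a b c d e x (hAB hx)⟩
  · rintro A B ⟨κ1, R, ℓ0, h1, h2, h⟩ ⟨κ2, R', ℓ1, h3, h4, h'⟩
    refine ⟨min κ1 κ2, max R R', max (max ℓ0 ℓ1) 0, lt_min h1 h3, h2.trans (le_max_left _ _), ?_⟩
    intro ℓ G f a b c d e x hx
    have hℓ0 : 0 ≤ ℓ := (le_max_right _ _).trans a
    have hG := b.hG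
    rcases hx with hx | hx
    · refine h ℓ G f ((le_max_left _ _).trans ((le_max_left _ _).trans a)) b
        (fun u p q => c u p (q.trans (le_max_left _ _)))
        (fun u p q r => (d u p q (r.trans (le_max_left _ _))).trans ?_)
        (fun n p q u r s => e n p q u r (s.trans (le_max_left _ _))) x hx
      gcongr
      exact min_le_left _ _
    · refine h' ℓ G f ((le_max_right _ _).trans ((le_max_left _ _).trans a)) b
        (fun u p q => c u p (q.trans (le_max_right _ _)))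
        (fun u p q r => (d u p q (r.trans (le_max_right _ _))).trans ?_)
        (fun n p q u r s => e n p q u r (s.trans (le_max_right _ _))) x hx
      gcongr
      exact min_le_right _ _
  · intro w hw
    obtain ⟨ε, hε, h⟩ := st_near hK hϑ hϑ' hk he hw.1 hw.2
    exact ⟨_, mem_nhdsWithin_of_mem_nhds (Metric.ball_mem_nhds w hε), h⟩

end Pool.Agent.U427.DG
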