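import Pool.Agent.U427.DG.Fwd
import Pool.Agent.U427.DG.Bwd
import Pool.Agent.W169.HF.Fam4
import Pool.Agent.H353R7.G4

/-!
# Derivatives: the local theorems for automorphic data
-/

set_option autoImplicit false

open Complex Set MeasureTheory intervalIntegral Filter Topology
open scoped ComplexConjugate NNReal ENNReal

namespace Pool.Agent.U427.DG

open H353.E H353.F Pool.Agent.W169.HF

/-- all zeros of the derivatives are at distance at most 1 from the line -/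
lemma xx_strip (m : ℕ) (hm : 1 ≤ m) {θ : ℝ} (hθ1 : θ ≤ 1 / 2) {N : ℝ} {μ : Fin m → ℂ}
    {α : Fin m → ℕ → ℂ} {ε : ℂ} {Λ : ℂ → ℂ} (d : DatumT θ N μ α ε Λ) (n : ℕ) {s : ℂ}
    (hz : iteratedDeriv n (XX N Λ) s = 0) : |s.re - 1 / 2| ≤ 1 := by
  have hm' : (1 : ℝ) ≤ m := by exact_mod_cast hm
  obtain ⟨B1, hB1, hBc⟩ := euler_close m
  set C : ℝ := 6 * m with hC
  have hC1 : 1 ≤ C := by rw [hC]; linarith
  have hN := d.one_le
  have hN0 : 0 < N := by linarith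
  have hNc : (N : ℂ) ≠ 0 := by exact_mod_cast hN0.ne'
  obtain ⟨X, hX⟩ : ∃ X : ℂ → ℂ, X = XX N Λ := ⟨_, rfl⟩
  rw [← hX] at hz
  have hXdef : ∀ z, X z = (N : ℂ) ^ (z / 2) * Λ z := fun z => by rw [hX]; rfl
  have gp := gaf_GP hm hN d.re_le
  have hnorm : ∀ j, ∀ p : ℕ, p.Prime → ‖α j p‖ ≤ Real.sqrt p := fun j p hp => by
    refine (d.norm_le j p hp).trans ?_
    rw [Real.sqrt_eq_rpow]
    have : (1 : ℝ) ≤ p := by exact_mod_cast hp.one_le
    exact Real.rpow_le_rpow_of_exponent_le this hθ1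
  have hXd : Differentiable ℂ X := by
    rw [hX]
    unfold XX
    refine Differentiable.mul (fun z => ?_) d.entire
    exact (((hasDerivAt_id z).div_const 2).const_cpow (c := (N : ℂ)) (Or.inl hNc)).differentiableAt
  have hXe : ∀ z : ℂ, 1 + θ < z.re → X z = gaf N μ z * euler α z := fun z hz => by
    simp only [hXdef, gaf]
    rw [d.euler z hz, mul_assoc]
    rfl
  have hclose : ∀ z : ℂ, 4 ≤ z.re → ‖X z - gaf N μ z‖ ≤ B1 * (1 / 2 : ℝ) ^ z.re * ‖gaf N μ z‖ :=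
    fun z hz => by
      have e : X z - gaf N μ z = (euler α z - 1) * gaf N μ z := by
        rw [hXe z (by linarith)]
        ring
      rw [e, norm_mul]
      exact mul_le_mul_of_nonneg_right (hBc α hnorm z hz) (norm_nonneg _)
  have hfe : ∀ z : ℂ, X z = ε * conj (X (1 - conj z)) := fun z => by
    simp only [hXdef]
    rw [map_mul, conj_cpow_real hN0]
    have e1 : conj ((1 - conj z) / 2) = (1 - z) / 2 := by
      rw [map_div₀, map_sub, Complex.conj_conj, map_one, map_ofNat]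
    have e2 : (N : ℂ) ^ (z / 2) * (N : ℂ) ^ (1 / 2 - z) = (N : ℂ) ^ ((1 - z) / 2) := by
      rw [← cpow_add _ _ hNc]
      congr 1
      ring
    rw [e1, d.fe z, ← e2]
    ring
  have hbdd : ∃ M, ∀ z : ℂ, -3 ≤ z.re → z.re ≤ 4 → ‖X z‖ ≤ Real.exp (M * (1 + |z.im|)) := by
    obtain ⟨M, hM⟩ := d.bdd (-3) 4
    refine ⟨Real.log (N ^ (2 : ℝ)) + M, fun z h1 h2 => ?_⟩
    simp only [hXdef]
    rw [norm_mul, Complex.norm_cpow_eq_rpow_re_of_pos hN0]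
    have e : (z / 2).re = z.re / 2 := by
      rw [show (2 : ℂ) = ((2 : ℝ) : ℂ) by norm_num, Complex.div_ofReal_re]
    rw [e]
    have h3 : N ^ (z.re / 2) ≤ N ^ (2 : ℝ) := Real.rpow_le_rpow_of_exponent_le hN (by linarith)
    have h4 := hM z h1 h2
    have h5 : 0 < N ^ (2 : ℝ) := Real.rpow_pos_of_pos hN0 _
    have h6 : 1 ≤ N ^ (2 : ℝ) := Real.one_le_rpow hN (by norm_num)
    refine (mul_le_mul h3 h4 (norm_nonneg _) h5.le).trans ?_
    rw [add_mul, Real.exp_add]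
    refine mul_le_mul_of_nonneg_right ?_ (Real.exp_pos _).le
    have h7 := Real.log_nonneg h6
    have h8 := abs_nonneg z.im
    calc N ^ (2 : ℝ) = Real.exp (Real.log (N ^ (2 : ℝ))) := (Real.exp_log h5).symm
      _ ≤ Real.exp (Real.log (N ^ (2 : ℝ)) * (1 + |z.im|)) := by
        apply Real.exp_le_exp.mpr
        nlinarith
  have L : LD (6 * m) ((1 + B1) * Real.exp (6 * m * 7)) (fun K => 4 * Real.exp (2 * |K| + 10)) X
      (gaf N μ) (gaD N μ) :=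
    LD_of gp hC1 hB1 hXd hclose ⟨ε, d.norm_eq, hfe⟩ hbdd
  have hzer : ∀ z, X z = 0 → z.re ≤ 3 / 2 := fun z hz => by
    by_contra hcon
    push Not at hcon
    rw [hXe z (by linarith)] at hz
    rcases mul_eq_zero.mp hz with h | h
    · exact gp.ne z (by linarith) h
    · exact euler_ne hnorm hcon h
  have hp1 : ∀ j, 1 ≤ 1 + ‖μ j‖ := fun j => by linarith [norm_nonneg (μ j)]
  have hcond1 : 1 ≤ N * ∏ j, (1 + ‖μ j‖) := by
    have h1 : 1 ≤ ∏ j, (1 + ‖μ j‖) := by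
      refine Finset.prod_induction _ (fun x => (1 : ℝ) ≤ x) (fun a b ha hb => ?_) le_rfl fun j _ => ?_
      · nlinarith
      · linarith [norm_nonneg (μ j)]
    nlinarith
  have hDb : ∃ a k : ℝ, 0 ≤ a ∧ 0 ≤ k ∧ ∀ z : ℂ, 1 ≤ z.re →
      ‖gaD N μ z‖ ≤ a + k * Real.log (‖z‖ + 4) := by
    refine ⟨Real.log (N * ∏ j, (1 + ‖μ j‖)) + 7 * m, m, ?_, by linarith, fun z hz => ?_⟩
    · have := Real.log_nonneg hcond1
      linarith
    · have := gaD_norm hN d.re_le hz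
      linarith
  have hstrip := strip_zeros hC1 L hzer hDb n hz
  rw [abs_le]
  constructor <;> linarith [hstrip.1, hstrip.2]

/-- the forward theorem for automorphic data -/
theorem aut_dfwd (m : ℕ) (hm : 1 ≤ m) {θ ϑ g X : ℝ} (hθ0 : 0 ≤ θ) (hθ1 : θ ≤ 1 / 2) (hϑ0 : 0 ≤ ϑ)
    (hϑ1 : ϑ ≤ 1) (hg : 0 < g) (hg1 : g ≤ 1) (hX : 1 ≤ X) :
    ∃ R C0 : ℝ, ∀ (N : ℝ) (μ : Fin m → ℂ) (α : Fin m → ℕ → ℂ) (ε : ℂ) (Λ : ℂ → ℂ),
    DatumT θ N μ α ε Λ → ∀ (y : ℝ) (n : ℕ), C0 ≤ cnd N μ y →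
      (ϑ / 2 + g) * Real.log (cnd N μ y) ≤ n → (n : ℝ) ≤ X * Real.log (cnd N μ y) →
      (∀ s : ℂ, 1 / 2 + ϑ < s.re → |s.im - y| ≤ R → Λ s ≠ 0) →
      ∀ s : ℂ, s.im = y → iteratedDeriv n (XX N Λ) s = 0 →
        s.re = 1 / 2 ∧ iteratedDeriv (n + 1) (XX N Λ) s ≠ 0 := by
  have hm' : (1 : ℝ) ≤ m := by exact_mod_cast hm
  obtain ⟨B, hB, HS⟩ := sharpX m hm hθ0 hθ1 (show (0 : ℝ) < 1 / 2 by norm_num) (by norm_num)
  have hlogB : 0 ≤ Real.log B := Real.log_nonneg hB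
  obtain ⟨κ, R1, ℓ1, hκ, hR1, HF⟩ := fwd_loc (ϑ := ϑ + g / 2) (g := g / 2) (X := 4 * X) (by linarith)
    (by positivity) (by linarith) (by linarith)
  obtain ⟨R, ℓ2, hR, HP⟩ := prof_all (Real.log B + 20 * (6 * m)) (1 + θ + 1 / 2 - 1 / 2) ϑ (g / 2) κ R1
    (by linarith) (by linarith) (by linarith) hϑ0 (by linarith) (by positivity) (by linarith) hκ hR1
  refine ⟨R, Real.exp (2 * |ℓ1| + 2 * |ℓ2| + 28 * m + 20 * m / g), ?_⟩
  intro N μ α ε Λ d y n hC h1 h2 hzf s hsy hs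
  obtain ⟨S, hslow, hfe, hzer, hne⟩ := HS N μ α ε Λ d
  have hN0 : (N : ℂ) ≠ 0 := by
    have := d.one_le
    exact_mod_cast (by linarith : (0 : ℝ) < N).ne'
  obtain ⟨L, hLd⟩ : ∃ L : ℝ, L = Real.log (cnd N μ y) := ⟨_, rfl⟩
  rw [← hLd] at h1 h2
  have hL : 2 * |ℓ1| + 2 * |ℓ2| + 28 * m + 20 * m / g ≤ L := by
    have := Real.log_le_log (Real.exp_pos _) hC
    rwa [Real.log_exp, ← hLd] at this
  have h0 : 0 ≤ 20 * m / g := by positivity
  have hab := le_abs_self ℓ1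
  have hab' := le_abs_self ℓ2
  have hab0 := abs_nonneg ℓ1
  have hab0' := abs_nonneg ℓ2
  have hlo := gaD_re_ge d.one_le d.re_le y
  have hup := gaD_re_le d.one_le d.re_le y
  change 1 / 2 * Real.log (cnd N μ y) - 7 * m ≤ _ at hlo
  change _ ≤ 1 / 2 * Real.log (cnd N μ y) + 5 * m at hup
  rw [← hLd] at hlo hup
  have ud := ud_of_sharp S hslow (by linarith) y
  obtain ⟨ℓ, hℓ⟩ : ∃ ℓ : ℝ, ℓ = (gaD N μ (3 / 2 + y * I)).re := ⟨_, rfl⟩
  rw [← hℓ] at hlo hup ud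
  have hgm : 20 * m ≤ g * L := by
    have h3 : 20 * m / g ≤ L := by linarith
    rw [div_le_iff₀ hg] at h3
    linarith
  have pf := HP ℓ _ _ (by linarith) ud fun u hu1 hu2 h => by
    refine hzf (1 / 2 + (y : ℂ) * I + u) (by simp; linarith) (by simpa using hu2) ?_
    unfold XX at h
    rcases mul_eq_zero.1 h with h | h
    · exact absurd (Complex.cpow_eq_zero_iff _ _ |>.1 h).1 hN0
    · exact h
  refine HF ℓ _ y (XX N Λ) n (by linarith) hslow.1 ⟨ε, d.norm_eq, hfe⟩ ud.hG pf ?_ ?_ s hsy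
    ((xx_strip m hm hθ1 d n hs).trans (by norm_num)) hs
  · refine le_trans ?_ h1
    have h4 : (ϑ + g / 2 + g / 2) * ℓ ≤ (ϑ + g / 2 + g / 2) * (1 / 2 * L + 5 * m) :=
      mul_le_mul_of_nonneg_left hup (by linarith)
    have h5 : (ϑ + g) * (5 * m) ≤ 2 * (5 * m) := mul_le_mul_of_nonneg_right (by linarith) (by linarith)
    nlinarith
  · refine h2.trans ?_
    nlinarith

/-- the backward theorem for automorphic data -/
theorem aut_dbwd (m : ℕ) (hm : 1 ≤ m) {k e : ℝ} (hk : 0 ≤ k) (he : 0 < e) :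
    ∃ κ R C0 : ℝ, 0 < κ ∧ ∀ (N : ℝ) (μ : Fin m → ℂ) (α : Fin m → ℕ → ℂ) (ε : ℂ) (Λ : ℂ → ℂ),
    Std N μ α ε Λ → ∀ y : ℝ, C0 ≤ cnd N μ y →
      (∀ r v : ℝ, k + e / 2 ≤ r → r ≤ 1 / 2 → |v| ≤ R →
        ‖LL μ Λ (1 / 2 + (r : ℂ) + ((y + v : ℝ) : ℂ) * I)‖ ≤ Real.exp (κ * Real.log (cnd N μ y))) →
      (∀ n : ℕ, (k / 2 + e / 8) * Real.log (cnd N μ y) ≤ n → ∀ s : ℂ, 1 / 2 < s.re → |s.im - y| ≤ R →
        iteratedDeriv n (XX N Λ) s ≠ 0) →
      ∀ s : ℂ, s.im = y → 1 / 2 + k + e ≤ s.re → Λ s ≠ 0 := by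
  by_cases hke : k + e ≤ 1 / 2
  swap
  · refine ⟨1, 0, 0, one_pos, fun N μ α ε Λ d y _ _ _ s _ hs => d.2 s (by linarith)⟩
  have hm' : (1 : ℝ) ≤ m := by exact_mod_cast hm
  obtain ⟨B, hB, HS⟩ := sharpX m hm (show (0 : ℝ) ≤ 1 / 2 by norm_num) le_rfl
    (show (0 : ℝ) < 1 / 2 by norm_num) (by norm_num)
  have hlogB : 0 ≤ Real.log B := Real.log_nonneg hB
  obtain ⟨κ1, R, ℓ1, hκ1, hR, HF⟩ := bwd_loc (K := Real.log B + 20 * (6 * m))
    (ϑ0 := 1 + 1 / 2 + 1 / 2 - 1 / 2) (k := k) (e := e) (by linarith) (by norm_num) (by norm_num) hk he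
  obtain ⟨W, hW⟩ : ∃ W : ℝ, W = (226 * m + 25 * m / (e / 2)) * (1 + (1 + R) ^ 2) := ⟨_, rfl⟩
  have hW0 : 0 ≤ W := by rw [hW]; positivity
  refine ⟨κ1 / 8, R, Real.exp (2 * |ℓ1| + 14 * m + 28 * m + 168 * m / e + 8 * W / κ1), by positivity, ?_⟩
  intro N μ α ε Λ d y hC hsz hzf s hsy hsre hs
  obtain ⟨S, hslow, hfe, hzer, hne⟩ := HS N μ α ε Λ d.1
  have hN := d.1.one_le
  obtain ⟨L, hLd⟩ : ∃ L : ℝ, L = Real.log (cnd N μ y) := ⟨_, rfl⟩
  have hL : 2 * |ℓ1| + 14 * m + 28 * m + 168 * m / e + 8 * W / κ1 ≤ L := by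
    have := Real.log_le_log (Real.exp_pos _) hC
    rwa [Real.log_exp, ← hLd] at this
  rw [← hLd] at hzf
  have h0 : 0 ≤ 168 * m / e := by positivity
  have h0' : 0 ≤ 8 * W / κ1 := by positivity
  have hab := le_abs_self ℓ1
  have hab0 := abs_nonneg ℓ1
  have hlo := gaD_re_ge d.1.one_le d.1.re_le y
  have hup := gaD_re_le d.1.one_le d.1.re_le y
  change 1 / 2 * Real.log (cnd N μ y) - 7 * m ≤ _ at hlo
  change _ ≤ 1 / 2 * Real.log (cnd N μ y) + 5 * m at hup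
  rw [← hLd] at hlo hup
  have ud := ud_of_sharp S hslow (by linarith) y
  have hsX : XX N Λ s = 0 := by
    unfold XX
    rw [hs, mul_zero]
  have hs1 : s.re ≤ 1 := by
    by_contra hcon
    push Not at hcon
    exact d.2 s hcon hs
  have hgm : 168 * m ≤ e * L := by
    have h3 : 168 * m / e ≤ L := by linarith
    rw [div_le_iff₀ he] at h3
    linarith
  have hWL : 8 * W ≤ κ1 * L := by
    have h3 : 8 * W / κ1 ≤ L := by linarith
    rw [div_le_iff₀ hκ1] at h3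
    linarith
  have hL0 : 0 ≤ L := by linarith
  have hshift : ∀ (n : ℕ) (u : ℂ), iteratedDeriv n (fun u => XX N Λ (1 / 2 + (y : ℂ) * I + u)) u =
      iteratedDeriv n (XX N Λ) (1 / 2 + (y : ℂ) * I + u) := fun n u =>
    congrFun (iteratedDeriv_comp_const_add n (XX N Λ) (1 / 2 + (y : ℂ) * I)) u
  have key := HF _ _ _ (by linarith) ud ?_ ?_ ?_ (s.re - 1 / 2) ⟨by linarith, by linarith⟩ (by linarith)
  · apply key
    have e1 : (1 / 2 + (y : ℂ) * I + ((s.re - 1 / 2 : ℝ) : ℂ) : ℂ) = s := by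
      apply Complex.ext
      · simp
      · simp [hsy]
    show XX N Λ (1 / 2 + (y : ℂ) * I + ((s.re - 1 / 2 : ℝ) : ℂ)) = 0
    rw [e1]
    exact hsX
  · intro u hu1 hu2 h
    have h3 : Λ (1 / 2 + (y : ℂ) * I + u) = 0 := by
      unfold XX at h
      have hN0 : (N : ℂ) ≠ 0 := by exact_mod_cast (by linarith : (0 : ℝ) < N).ne'
      rcases mul_eq_zero.1 h with h | h
      · exact absurd (Complex.cpow_eq_zero_iff _ _ |>.1 h).1 hN0
      · exact h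
    exact d.2 _ (by simp; linarith) h3
  · intro u hu1 hu2 hu3
    obtain ⟨hg0, hg1⟩ := gam_up hm hN d.1.re_le y (ρ := e / 2) (by positivity) (by linarith)
      (u := u) (by linarith)
    have h5 := hsz u.re u.im hu1 hu2 hu3
    rw [← hLd] at h5
    have e2 : (1 / 2 + (u.re : ℂ) + ((y + u.im : ℝ) : ℂ) * I : ℂ) = 1 / 2 + (y : ℂ) * I + u := by
      apply Complex.ext <;> simp
    rw [e2, LL_eq (by linarith : (0 : ℝ) < N), norm_mul, norm_inv] at h5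
    have hgpos := norm_pos_iff.2 hg0
    rw [← div_eq_mul_inv, div_le_iff₀ hgpos] at h5
    obtain ⟨ℓ, hℓ⟩ : ∃ ℓ : ℝ, ℓ = (gaD N μ (3 / 2 + y * I)).re := ⟨_, rfl⟩
    obtain ⟨G, hG⟩ : ∃ G : ℝ, G = ‖gaf N μ (3 / 2 + y * I)‖ * Real.exp (-ℓ) := ⟨_, rfl⟩
    have hG0 : 0 < G := by rw [hG, hℓ]; exact ud.hG
    rw [← hℓ] at hg1 hlo ⊢
    rw [← hG] at hg1 ⊢
    have h6 : (226 * m + 25 * m / (e / 2)) * (1 + ‖u‖ ^ 2) ≤ W := by
      rw [hW]
      have h7 : ‖u‖ ≤ 1 + R := by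
        refine (Complex.norm_le_abs_re_add_abs_im u).trans (add_le_add ?_ hu3)
        rw [abs_of_nonneg (by linarith)]
        linarith
      have h8 : 0 ≤ 226 * (m : ℝ) + 25 * m / (e / 2) := by positivity
      gcongr
    calc ‖XX N Λ (1 / 2 + (y : ℂ) * I + u)‖
        ≤ Real.exp (κ1 / 8 * L) * ‖gaf N μ (1 / 2 + (y : ℂ) * I + u)‖ := h5
      _ ≤ Real.exp (κ1 / 8 * L) * (G * Real.exp (ℓ * u.re + (226 * m + 25 * m / (e / 2)) * (1 + ‖u‖ ^ 2))) :=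
        mul_le_mul_of_nonneg_left hg1 (Real.exp_pos _).le
      _ = G * Real.exp (κ1 / 8 * L + (ℓ * u.re + (226 * m + 25 * m / (e / 2)) * (1 + ‖u‖ ^ 2))) := by
        rw [Real.exp_add (κ1 / 8 * L)]
        ring
      _ ≤ G * Real.exp (ℓ * u.re + κ1 * ℓ) := by
        refine mul_le_mul_of_nonneg_left (Real.exp_le_exp.2 ?_) hG0.le
        have h9 : κ1 * (1 / 2 * L - 7 * m) ≤ κ1 * ℓ := mul_le_mul_of_nonneg_left hlo hκ1.le
        have h10 : κ1 * (28 * m) ≤ κ1 * L := mul_le_mul_of_nonneg_left (by linarith) hκ1.le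
        nlinarith
  · intro n hn1 hn2 u hu1 hu2
    rw [hshift]
    refine hzf n (le_trans ?_ hn1) _ (by simp; linarith) (by simpa using hu2)
    have h3 : (k + 3 * e / 8) * (1 / 2 * L - 7 * m) ≤ (k + 3 * e / 8) * (gaD N μ (3 / 2 + y * I)).re :=
      mul_le_mul_of_nonneg_left hlo (by positivity)
    refine le_trans ?_ h3
    have h4 : (k + 3 * e / 8) * (7 * m) ≤ 1 / 2 * (7 * m) :=
      mul_le_mul_of_nonneg_right (by linarith) (by positivity)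
    nlinarith

end Pool.Agent.U427.DG
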