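import Pool.Agent.U427.DG.Aut

/-!
# Derivatives: classes of pairs (L-function, height)
-/

set_option autoImplicit false

open Complex Set MeasureTheory intervalIntegral Filter Topology
open scoped ComplexConjugate NNReal ENNReal

namespace Pool.Agent.U427.DG

open H353.E H353.F Pool.Agent.W169.HF

/-- no zeros to the right of `1/2 + k`, for large conductor -/
def DZ {m : ℕ} (P : Cls2 m) (k : ℝ) : Prop := ∀ e R : ℝ, 0 < e → ∃ C : ℝ,
  ∀ (N : ℝ) (μ : Fin m → ℂ) (α : Fin m → ℕ → ℂ) (ε : ℂ) (Λ : ℂ → ℂ) (y : ℝ), P N μ α ε Λ y →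
  Std N μ α ε Λ → ∀ s : ℂ, |s.im - y| ≤ R → C ≤ cnd N μ s.im → 1 / 2 + k + e ≤ s.re → Λ s ≠ 0

/-- zeros of the derivatives of order at least `(k / 2 + e) log C(t) + C` are simple and on the line -/
def DL {m : ℕ} (P : Cls2 m) (k : ℝ) : Prop := ∀ e R : ℝ, 0 < e → ∃ C : ℝ,
  ∀ (N : ℝ) (μ : Fin m → ℂ) (α : Fin m → ℕ → ℂ) (ε : ℂ) (Λ : ℂ → ℂ) (y : ℝ), P N μ α ε Λ y →
  Std N μ α ε Λ → ∀ (n : ℕ) (s : ℂ), |s.im - y| ≤ R → (k / 2 + e) * Real.log (cnd N μ s.im) + C ≤ n →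
    iteratedDeriv n (XX N Λ) s = 0 → s.re = 1 / 2 ∧ iteratedDeriv (n + 1) (XX N Λ) s ≠ 0

/-- the same without simplicity, for large conductors only -/
def DW {m : ℕ} (P : Cls2 m) (k : ℝ) : Prop := ∀ e R : ℝ, 0 < e → ∃ C : ℝ,
  ∀ (N : ℝ) (μ : Fin m → ℂ) (α : Fin m → ℕ → ℂ) (ε : ℂ) (Λ : ℂ → ℂ) (y : ℝ), P N μ α ε Λ y →
  Std N μ α ε Λ → ∀ (n : ℕ) (s : ℂ), |s.im - y| ≤ R → (k / 2 + e) * Real.log (cnd N μ s.im) + C ≤ n →
    iteratedDeriv n (XX N Λ) s = 0 → s.re = 1 / 2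

/-- size exponent `0` to the right of `1/2 + k` -/
def GR {m : ℕ} (P : Cls2 m) (k : ℝ) : Prop := ∀ e R : ℝ, 0 < e → ∃ B : ℝ,
  ∀ (N : ℝ) (μ : Fin m → ℂ) (α : Fin m → ℕ → ℂ) (ε : ℂ) (Λ : ℂ → ℂ) (y : ℝ), P N μ α ε Λ y →
  Std N μ α ε Λ → ∀ r v : ℝ, k + e ≤ r → r ≤ 1 / 2 → |v| ≤ R →
    ‖LL μ Λ (1 / 2 + (r : ℂ) + ((y + v : ℝ) : ℂ) * I)‖ ≤ Real.exp (B + e * Real.log (cnd N μ (y + v)))

variable {m : ℕ} {P : Cls2 m}

lemma DL.dw {k : ℝ} (h : DL P k) : DW P k := by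
  intro e R he
  obtain ⟨C, H⟩ := h e R he
  exact ⟨C, fun N μ α ε Λ y hP hS n s h1 h2 h3 => (H N μ α ε Λ y hP hS n s h1 h2 h3).1⟩

lemma dz_half {k : ℝ} (hk : 1 / 2 ≤ k) : DZ P k := by
  intro e R he
  exact ⟨0, fun N μ α ε Λ y _ hS s _ _ h => hS.2 s (by linarith)⟩

/-- zero-free implies zeros of the derivatives on the line -/
theorem dz_dl (hm : 1 ≤ m) {k : ℝ} (hk : 0 ≤ k) (hk1 : k ≤ 1 / 2) (h : DZ P k) : DL P k := by
  intro e R' he
  have hm' : (1 : ℝ) ≤ m := by exact_mod_cast hm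
  obtain ⟨g, hg⟩ : ∃ g : ℝ, g = min (e / 2) (1 / 2) := ⟨_, rfl⟩
  have hg0 : 0 < g := by rw [hg]; exact lt_min (by positivity) (by norm_num)
  have hg1 : g ≤ 1 / 2 := by rw [hg]; exact min_le_right _ _
  have hge : g ≤ e / 2 := by rw [hg]; exact min_le_left _ _
  obtain ⟨R, C1, H⟩ := aut_dfwd m hm (θ := 1 / 2) (ϑ := k + g) (g := g) (X := 2) (by norm_num) le_rfl
    (by linarith) (by linarith) hg0 (by linarith) (by norm_num)
  obtain ⟨C2, HS⟩ := datum_sharp m hm (θ := 1 / 2) (η := 1 / 2) (by norm_num) le_rfl (by norm_num)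
  obtain ⟨C3, HZ⟩ := h (g / 2) (|R| + |R'|) (by positivity)
  obtain ⟨W, hW⟩ : ∃ W : ℝ, W = |C1| + |C3| * (1 + |R|) ^ m + Real.exp |C2| := ⟨_, rfl⟩
  have hp : 1 ≤ (1 + |R|) ^ m := one_le_pow₀ (by linarith [abs_nonneg R])
  have h3 : 0 ≤ |C3| * (1 + |R|) ^ m := by positivity
  have hexp : 1 ≤ Real.exp |C2| := Real.one_le_exp (abs_nonneg C2)
  have hW1 : 1 ≤ W := by rw [hW]; linarith [abs_nonneg C1]
  have hlW : |C2| ≤ Real.log W := by
    rw [Real.le_log_iff_exp_le (by linarith)]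
    rw [hW]; linarith [abs_nonneg C1]
  refine ⟨|C2| + Real.log W + 1, ?_⟩
  intro N μ α ε Λ y hP hS n s hsy hn hs
  have hN := hS.1.one_le
  have hc := cnd_pos hN μ s.im
  obtain ⟨L, hL⟩ : ∃ L : ℝ, L = Real.log (cnd N μ s.im) := ⟨_, rfl⟩
  have hL0 : 0 ≤ L := by rw [hL]; exact Real.log_nonneg hc
  rw [← hL] at hn
  have hlogW : 0 ≤ Real.log W := Real.log_nonneg hW1
  have h6 : 0 ≤ (k / 2 + e) * L := by positivity
  rcases le_total (L + |C2|) n with hbig | hsmall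
  · refine HS N μ α ε Λ hS.1 n s ?_ hs
    change ((1 + 2 * (1 / 2)) / 4 + 1 / 2) * Real.log (cnd N μ s.im) + C2 ≤ n
    rw [← hL]
    have := le_abs_self C2
    linarith
  · -- then the conductor is large
    have hLW : Real.log W + 1 ≤ L := by linarith
    have hWc : W ≤ cnd N μ s.im := by
      rw [hL] at hLW
      have h1 := Real.exp_le_exp.2 (show Real.log W ≤ Real.log (cnd N μ s.im) by linarith)
      rwa [Real.exp_log (by linarith), Real.exp_log (by linarith)] at h1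
    refine H N μ α ε Λ hS.1 s.im n ?_ ?_ ?_ ?_ s rfl hs
    · have := le_abs_self C1
      linarith
    · rw [← hL]
      have h3 : ((k + g) / 2 + g) * L ≤ (k / 2 + e) * L := mul_le_mul_of_nonneg_right (by linarith) hL0
      linarith [abs_nonneg C2]
    · rw [← hL]
      linarith
    · intro z hz1 hz2
      refine HZ N μ α ε Λ y hP hS z ?_ ?_ (by linarith)
      · have e1 : z.im - y = (z.im - s.im) + (s.im - y) := by ring
        rw [e1]
        exact (abs_add_le _ _).trans (add_le_add (hz2.trans (le_abs_self _)) (hsy.trans (le_abs_self _)))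
      · have h5 := cndm_shift (N := N) (by linarith) μ (y := s.im) (y' := z.im) (hz2.trans (le_abs_self R))
        have h6 : |C3| * (1 + |R|) ^ m ≤ cnd N μ z.im * (1 + |R|) ^ m := by
          have := abs_nonneg C1
          linarith
        have h7 : |C3| ≤ cnd N μ z.im := le_of_mul_le_mul_right h6 (by linarith)
        exact (le_abs_self _).trans h7

end Pool.Agent.U427.DG
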