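import Pool.Agent.U427.DG.Fam
import Pool.Agent.W169.HF.Loc5

/-!
# Derivatives: classes of pairs, sizes and zeros
-/

set_option autoImplicit false

open Complex Set MeasureTheory intervalIntegral Filter Topology
open scoped ComplexConjugate NNReal ENNReal

namespace Pool.Agent.U427.DG

open H353.E H353.F Pool.Agent.W169.HF

/-- a zero-free region gives the size `0` in it -/
theorem aut_zfsz (m : ℕ) (hm : 1 ≤ m) {k ε : ℝ} (hk : 0 ≤ k) (hk1 : k ≤ 1 / 2) (hε : 0 < ε) :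
    ∃ R C0 B : ℝ, ∀ (N : ℝ) (μ : Fin m → ℂ) (α : Fin m → ℕ → ℂ) (e : ℂ) (Λ : ℂ → ℂ),
    DatumT (1 / 2) N μ α e Λ → ∀ y : ℝ, C0 ≤ cnd N μ y →
      (∀ s : ℂ, 1 / 2 + k < s.re → |s.im - y| ≤ R → Λ s ≠ 0) →
      ∀ r : ℝ, k ≤ r → r ≤ 1 / 2 → ‖LL μ Λ (1 / 2 + (r : ℂ) + (y : ℂ) * I)‖ ≤
        Real.exp (B + ε * Real.log (cnd N μ y)) := by
  have hm' : (1 : ℝ) ≤ m := by exact_mod_cast hm
  obtain ⟨B, hB, HS⟩ := sharpX m hm (show (0 : ℝ) ≤ 1 / 2 by norm_num) le_rfl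
    (show (0 : ℝ) < 1 / 2 by norm_num) (by norm_num)
  have hlogB : 0 ≤ Real.log B := Real.log_nonneg hB
  obtain ⟨ρ0, hρ0d⟩ : ∃ ρ0 : ℝ, ρ0 = min ε 1 := ⟨_, rfl⟩
  have hρ0 : 0 < ρ0 := by rw [hρ0d]; exact lt_min hε one_pos
  have hρ1 : ρ0 ≤ 1 := by rw [hρ0d]; exact min_le_right ε 1
  have hρε : ρ0 ≤ ε := by rw [hρ0d]; exact min_le_left ε 1
  have hK : 1 ≤ Real.log B + 20 * (6 * m) := by linarith
  obtain ⟨R4, ℓ3, hR4, HP⟩ := prof_all (Real.log B + 20 * (6 * m)) (1 + 1 / 2 + 1 / 2 - 1 / 2) k ρ0 ρ0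
    1 hK (by norm_num) (by norm_num) hk (by linarith) hρ0 hρ1 hρ0 le_rfl
  refine ⟨R4, Real.exp (2 * |ℓ3| + 14 * m), 462 * m + 15 * m, ?_⟩
  intro N μ α e Λ d y hC hnz r hr hr1
  obtain ⟨S, hslow, hfe, hzer, hne⟩ := HS N μ α e Λ d
  have hN1 := d.one_le
  have hNpos : 0 < N := by linarith
  have hN0 : (N : ℂ) ≠ 0 := by exact_mod_cast hNpos.ne'
  have hL : 2 * |ℓ3| + 14 * m ≤ Real.log (cnd N μ y) := by
    have := Real.log_le_log (Real.exp_pos _) hC
    rwa [Real.log_exp] at this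
  have hlo := gaD_re_ge d.one_le d.re_le y
  have hup := gaD_re_le d.one_le d.re_le y
  change 1 / 2 * Real.log (cnd N μ y) - 7 * m ≤ _ at hlo
  change _ ≤ 1 / 2 * Real.log (cnd N μ y) + 5 * m at hup
  obtain ⟨ℓ, hℓ⟩ : ∃ ℓ : ℝ, ℓ = (gaD N μ (3 / 2 + y * I)).re := ⟨_, rfl⟩
  have ha3 := le_abs_self ℓ3
  have hb3 := abs_nonneg ℓ3
  have ud := ud_of_sharp S hslow (by norm_num) y
  have pf := HP _ _ _ (by linarith) ud (fun u hu1 hu2 h => by
    unfold XX at h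
    rcases mul_eq_zero.1 h with h | h
    · exact absurd (Complex.cpow_eq_zero_iff _ _ |>.1 h).1 hN0
    · exact hnz _ (by simp; linarith) (by simpa using hu2) h)
  have h5 := pf.upp r (by rw [ofReal_re, abs_of_nonneg (hk.trans hr)]; linarith) (by simp)
  have h6 := LL_le_r hm hN1 d.re_le Λ y (hk.trans hr) (by linarith) h5
  rw [← hℓ] at h6 hlo hup
  refine h6.trans (Real.exp_le_exp.2 ?_)
  rw [ofReal_re, abs_of_nonneg (hk.trans hr)]
  have hmx : ℓ * max r (k + ρ0) ≤ ℓ * (r + ρ0) :=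
    mul_le_mul_of_nonneg_left (max_le (by linarith) (by linarith)) (by linarith)
  have h7 : (2 * ρ0) * ℓ ≤ (2 * ρ0) * (1 / 2 * Real.log (cnd N μ y) + 5 * m) :=
    mul_le_mul_of_nonneg_left hup (by linarith)
  have h8 : ρ0 * Real.log (cnd N μ y) ≤ ε * Real.log (cnd N μ y) :=
    mul_le_mul_of_nonneg_right hρε (by linarith)
  have h9 : (2 * ρ0) * (5 * m) ≤ 2 * (5 * m) := mul_le_mul_of_nonneg_right (by linarith) (by positivity)
  have h10 : (0 : ℝ) ≤ m := by linarith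
  nlinarith

variable {m : ℕ} {P : Cls2 m}

/-- zero-free implies small -/
theorem dz_gr (hm : 1 ≤ m) {k : ℝ} (hk : 0 ≤ k) (h : DZ P k) : GR P k := by
  intro e R' he
  by_cases hke : k + e ≤ 1 / 2
  swap
  · exact ⟨0, fun N μ α ε Λ y _ _ r v h1 h2 _ => absurd (h1.trans h2) hke⟩
  obtain ⟨R, C1, B, H⟩ := aut_zfsz m hm (k := k + e / 2) (ε := e) (by linarith) (by linarith) he
  obtain ⟨C3, HZ⟩ := h (e / 4) (|R| + |R'|) (by positivity)
  obtain ⟨B2, HT⟩ := aut_triv_r m hm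
  obtain ⟨W, hW⟩ : ∃ W : ℝ, W = |C1| + |C3| * (1 + |R|) ^ m + 1 := ⟨_, rfl⟩
  have hp : 1 ≤ (1 + |R|) ^ m := one_le_pow₀ (by linarith [abs_nonneg R])
  have h3 : 0 ≤ |C3| * (1 + |R|) ^ m := by positivity
  refine ⟨max B (B2 + 3 / 4 * Real.log W), fun N μ α ε Λ y0 hP hS r v hr hr1 hv => ?_⟩
  obtain ⟨y, hy⟩ : ∃ y : ℝ, y = y0 + v := ⟨_, rfl⟩
  rw [← hy]
  have hN := hS.1.one_le
  have hc := cnd_pos hN μ y
  have hL0 : 0 ≤ Real.log (cnd N μ y) := Real.log_nonneg hc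
  rcases le_total (cnd N μ y) W with hsm | hbig
  · refine (HT N μ α ε Λ hS.1 y r (by linarith) hr1).trans (Real.exp_le_exp.2 ?_)
    have h3 : Real.log (cnd N μ y) ≤ Real.log W := Real.log_le_log (by linarith) hsm
    have h4 := le_max_right B (B2 + 3 / 4 * Real.log W)
    have h5 : 0 ≤ e * Real.log (cnd N μ y) := by positivity
    linarith
  · refine (H N μ α ε Λ hS.1 y ?_ (fun z hz1 hz2 => ?_) r (by linarith) hr1).trans (Real.exp_le_exp.2 ?_)
    · have := le_abs_self C1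
      linarith
    · refine HZ N μ α ε Λ y0 hP hS z ?_ ?_ (by linarith)
      · have e1 : z.im - y0 = (z.im - y) + v := by rw [hy]; ring
        rw [e1]
        exact (abs_add_le _ _).trans (add_le_add (hz2.trans (le_abs_self _)) (hv.trans (le_abs_self _)))
      · have h5 := cndm_shift (N := N) (by linarith) μ (y := y) (y' := z.im) (hz2.trans (le_abs_self R))
        have h6 : |C3| * (1 + |R|) ^ m ≤ cnd N μ z.im * (1 + |R|) ^ m := by
          have := abs_nonneg C1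
          linarith
        have h7 : |C3| ≤ cnd N μ z.im := le_of_mul_le_mul_right h6 (by linarith)
        exact (le_abs_self _).trans h7
    · have h4 := le_max_left B (B2 + 3 / 4 * Real.log W)
      linarith

/-- small, with the zeros of the derivatives on the line, implies zero-free -/
theorem gr_dw_dz (hm : 1 ≤ m) {k : ℝ} (hk : 0 ≤ k) (hG : GR P k) (hD : DW P k) : DZ P k := by
  intro e R' he
  have hm' : (1 : ℝ) ≤ m := by exact_mod_cast hm
  obtain ⟨κ, R, C0, hκ, H⟩ := aut_dbwd m hm hk he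
  obtain ⟨B, HB⟩ := hG (min (e / 2) (κ / 2)) (|R| + |R'|) (lt_min (by positivity) (by positivity))
  obtain ⟨C1, HD⟩ := hD (e / 16) (|R| + |R'|) (by positivity)
  obtain ⟨rr, hrr⟩ : ∃ rr : ℝ, rr = m * Real.log (1 + |R|) := ⟨_, rfl⟩
  have hrr0 : 0 ≤ rr := by
    rw [hrr]
    exact mul_nonneg (Nat.cast_nonneg m) (Real.log_nonneg (by linarith [abs_nonneg R]))
  have hmin1 := min_le_left (e / 2) (κ / 2)
  have hmin2 := min_le_right (e / 2) (κ / 2)
  have hmin0 : 0 < min (e / 2) (κ / 2) := lt_min (by positivity) (by positivity)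
  obtain ⟨T, hT⟩ : ∃ T : ℝ, T = 2 * (|B| + κ / 2 * rr) / κ + 16 * (|C1| + (k / 2 + e / 16) * rr) / e :=
    ⟨_, rfl⟩
  have ht1 : 0 ≤ 2 * (|B| + κ / 2 * rr) / κ := by positivity
  have ht2 : 0 ≤ 16 * (|C1| + (k / 2 + e / 16) * rr) / e := by positivity
  refine ⟨max C0 (Real.exp T), ?_⟩
  intro N μ α ε Λ y0 hP hS s hsy hC hs
  have hN := hS.1.one_le
  obtain ⟨y, hy⟩ : ∃ y : ℝ, y = s.im := ⟨_, rfl⟩
  rw [← hy] at hsy hC
  have hLT : T ≤ Real.log (cnd N μ y) := by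
    have := Real.log_le_log (Real.exp_pos _) ((le_max_right _ _).trans hC)
    rwa [Real.log_exp] at this
  obtain ⟨L, hL⟩ : ∃ L : ℝ, L = Real.log (cnd N μ y) := ⟨_, rfl⟩
  have hL0 : 0 ≤ L := by rw [hL]; exact Real.log_nonneg (cnd_pos hN μ y)
  rw [← hL] at hLT
  have hL1 : 2 * (|B| + κ / 2 * rr) ≤ κ * L := by
    have h1 : 2 * (|B| + κ / 2 * rr) / κ ≤ L := by linarith
    rw [div_le_iff₀ hκ] at h1
    linarith
  have hL2 : 16 * (|C1| + (k / 2 + e / 16) * rr) ≤ e * L := by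
    have h1 : 16 * (|C1| + (k / 2 + e / 16) * rr) / e ≤ L := by linarith
    rw [div_le_iff₀ he] at h1
    linarith
  refine H N μ α ε Λ hS y ((le_max_left _ _).trans hC) (fun r v hr hr1 hv => ?_)
    (fun n hn z hz1 hz2 hz => ?_) s hy.symm hs
  · have h7 := HB N μ α ε Λ y0 hP hS r (y - y0 + v) (by linarith) hr1 (by
      rw [add_comm |R|]
      exact (abs_add_le _ _).trans (add_le_add (hsy.trans (le_abs_self _)) (hv.trans (le_abs_self _))))
    rw [show y0 + (y - y0 + v) = y + v by ring] at h7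
    refine h7.trans (Real.exp_le_exp.2 ?_)
    have h3 := logm_shift hN μ (y := y + v) (y' := y) (R := R) (by
      rw [show y - (y + v) = -v by ring, abs_neg]
      exact hv.trans (le_abs_self R))
    rw [← hrr, ← hL] at h3
    rw [← hL]
    have h4 : min (e / 2) (κ / 2) * Real.log (cnd N μ (y + v)) ≤ min (e / 2) (κ / 2) * (L + rr) :=
      mul_le_mul_of_nonneg_left h3 hmin0.le
    have h5 : min (e / 2) (κ / 2) * (L + rr) ≤ κ / 2 * (L + rr) :=
      mul_le_mul_of_nonneg_right hmin2 (by linarith)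
    have h6 := le_abs_self B
    linarith
  · have h3 := logm_shift hN μ (y := z.im) (y' := y) (R := R) (by
      rw [abs_sub_comm]
      exact hz2.trans (le_abs_self R))
    rw [← hrr, ← hL] at h3
    rw [← hL] at hn
    have h8 := HD N μ α ε Λ y0 hP hS n z (by
      have e1 : z.im - y0 = (z.im - y) + (y - y0) := by ring
      rw [e1]
      exact (abs_add_le _ _).trans (add_le_add (hz2.trans (le_abs_self _)) (hsy.trans (le_abs_self _)))) (by
      have h4 : (k / 2 + e / 16) * Real.log (cnd N μ z.im) ≤ (k / 2 + e / 16) * (L + rr) :=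
        mul_le_mul_of_nonneg_left h3 (by positivity)
      have h6 := le_abs_self C1
      linarith) hz
    linarith

/-- the size `0` on the line implies the size `0` to the right -/
theorem pe_gr (hm : 1 ≤ m) (hE : PE P 0) : GR P 0 := by
  intro e R' he
  obtain ⟨R, κ', C0, B, hκ', H⟩ := aut_maj m hm he
  obtain ⟨B2, HT⟩ := aut_triv_r m hm
  obtain ⟨B1, HB⟩ := hE (κ' / 2) (|R'| + |R|) (by positivity)
  obtain ⟨rr, hrr⟩ : ∃ rr : ℝ, rr = m * Real.log (1 + |R|) := ⟨_, rfl⟩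
  have hrr0 : 0 ≤ rr := by
    rw [hrr]
    exact mul_nonneg (Nat.cast_nonneg m) (Real.log_nonneg (by linarith [abs_nonneg R]))
  obtain ⟨W, hW⟩ : ∃ W : ℝ, W = max (max C0 1) (Real.exp (2 * (|B1| + κ' / 2 * rr) / κ')) := ⟨_, rfl⟩
  refine ⟨max B (B2 + 3 / 4 * Real.log W), fun N μ α ε Λ y0 hP hS r v hr hr1 hv => ?_⟩
  obtain ⟨y, hy⟩ : ∃ y : ℝ, y = y0 + v := ⟨_, rfl⟩
  rw [← hy]
  have hc := cnd_pos hS.1.one_le μ y
  have hL0 : 0 ≤ Real.log (cnd N μ y) := Real.log_nonneg hc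
  rcases le_total (cnd N μ y) W with hsm | hbig
  · refine (HT N μ α ε Λ hS.1 y r (by linarith) hr1).trans (Real.exp_le_exp.2 ?_)
    have h3 : Real.log (cnd N μ y) ≤ Real.log W := Real.log_le_log (by linarith) hsm
    have h4 := le_max_right B (B2 + 3 / 4 * Real.log W)
    have h5 : 0 ≤ e * Real.log (cnd N μ y) := by positivity
    linarith
  · have hL := lt_log (((le_max_right _ _).trans hW.ge).trans hbig)
    rw [div_le_iff₀ hκ'] at hL
    refine (H N μ α ε Λ hS.1 hS.2 y ((((le_max_left _ _).trans (le_max_left _ _)).trans hW.ge).trans hbig)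
      (fun w hw => ?_) r (by linarith) hr1).trans (Real.exp_le_exp.2 ?_)
    · have h7 := HB N μ α ε Λ y0 hP hS (v + w)
        ((abs_add_le _ _).trans (add_le_add (hv.trans (le_abs_self _)) (hw.trans (le_abs_self _))))
      rw [← add_assoc, ← hy] at h7
      refine h7.trans (Real.exp_le_exp.2 ?_)
      have h5 := logm_shift hS.1.one_le μ (y := y + w) (y' := y) (R := R) (by
        rw [show y - (y + w) = -w by ring, abs_neg]
        exact hw.trans (le_abs_self R))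
      rw [← hrr] at h5
      have h6 : (0 + κ' / 2) * Real.log (cnd N μ (y + w)) ≤ (0 + κ' / 2) * (Real.log (cnd N μ y) + rr) :=
        mul_le_mul_of_nonneg_left h5 (by positivity)
      have h7 := le_abs_self B1
      linarith
    · have h4 := le_max_left B (B2 + 3 / 4 * Real.log W)
      linarith

/-- zero-free implies that the zeros of the heat flow are on the line -/
theorem dz_ph (hm : 1 ≤ m) (h : DZ P 0) : PH P 0 := by
  intro ε X R' hε
  obtain ⟨g, hg⟩ : ∃ g : ℝ, g = min (ε / 4) (1 / 2) := ⟨_, rfl⟩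
  have hg0 : 0 < g := by rw [hg]; exact lt_min (by positivity) (by norm_num)
  have hg1 : g ≤ 1 / 2 := by rw [hg]; exact min_le_right _ _
  have hge : g ≤ ε / 4 := by rw [hg]; exact min_le_left _ _
  obtain ⟨R, C0, H⟩ := aut_fwd m hm (θ := 1 / 2) (ϑ := g) (g := ε / 2) (X := max X 1) (by norm_num) le_rfl
    hg0.le (by linarith) (by positivity) (le_max_right _ _)
  obtain ⟨C3, HZ⟩ := h (g / 2) (|R| + |R'|) (by positivity)
  have hp : 1 ≤ (1 + |R|) ^ m := one_le_pow₀ (by linarith [abs_nonneg R])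
  refine ⟨max C0 (|C3| * (1 + |R|) ^ m), fun N μ α e Λ y0 hP hS t s ht hsy hC h1 h2 hs => ?_⟩
  refine H N μ α e Λ hS.1 t s.im ht ((le_max_left _ _).trans hC) (by linarith) (h2.trans (le_max_left _ _))
    (fun z hz1 hz2 => ?_) s rfl hs
  have hN := hS.1.one_le
  refine HZ N μ α e Λ y0 hP hS z ?_ ?_ (by linarith)
  · have e1 : z.im - y0 = (z.im - s.im) + (s.im - y0) := by ring
    rw [e1]
    exact (abs_add_le _ _).trans (add_le_add (hz2.trans (le_abs_self _)) (hsy.trans (le_abs_self _)))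
  · have h5 := cndm_shift (N := N) (by linarith) μ (y := s.im) (y' := z.im) (hz2.trans (le_abs_self R))
    have h6 : |C3| * (1 + |R|) ^ m ≤ cnd N μ z.im * (1 + |R|) ^ m :=
      ((le_max_right _ _).trans hC).trans h5
    have h7 : |C3| ≤ cnd N μ z.im := le_of_mul_le_mul_right h6 (by linarith)
    exact (le_abs_self _).trans h7

theorem dz_pe (hm : 1 ≤ m) (h : DZ P 0) : PE P 0 := by
  have h1 := ph_pe hm le_rfl (dz_ph hm h)
  rwa [zero_div] at h1

theorem dl_half (hm : 1 ≤ m) : DL P (1 / 2) := dz_dl hm (by norm_num) le_rfl (dz_half le_rfl)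

theorem dz_iff (hm : 1 ≤ m) {k : ℝ} (hk : 0 ≤ k) (hk1 : k ≤ 1 / 2) : DZ P k ↔ GR P k ∧ DL P k :=
  ⟨fun h => ⟨dz_gr hm hk h, dz_dl hm hk hk1 h⟩, fun h => gr_dw_dz hm hk h.1 h.2.dw⟩

theorem dz_iff_w (hm : 1 ≤ m) {k : ℝ} (hk : 0 ≤ k) (hk1 : k ≤ 1 / 2) : DZ P k ↔ GR P k ∧ DW P k :=
  ⟨fun h => ⟨dz_gr hm hk h, (dz_dl hm hk hk1 h).dw⟩, fun h => gr_dw_dz hm hk h.1 h.2⟩

theorem dz_zero (hm : 1 ≤ m) : DZ P 0 ↔ PE P 0 ∧ DL P 0 :=
  ⟨fun h => ⟨dz_pe hm h, dz_dl hm le_rfl (by norm_num) h⟩, fun h => gr_dw_dz hm le_rfl (pe_gr hm h.1) h.2.dw⟩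

theorem dz_zero_w (hm : 1 ≤ m) : DZ P 0 ↔ PE P 0 ∧ DW P 0 :=
  ⟨fun h => ⟨dz_pe hm h, (dz_dl hm le_rfl (by norm_num) h).dw⟩, fun h => gr_dw_dz hm le_rfl (pe_gr hm h.1) h.2⟩

end Pool.Agent.U427.DG
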