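import Pool.Agent.W169.HF.Loc2
import Pool.Agent.H353R7.G2

/-!
# Derivatives: the forward local theorem

If `f` looks like `G exp (ℓ u)` to the right of `ϑ` in a window, then for `n ≥ (ϑ + g) ℓ` the zeros of
the `n`-th derivative near the centre of the window are simple and on the line.  The local theorem is
`H353.F.Loc.zeros`.
-/

set_option autoImplicit false

open Complex Set MeasureTheory Filter Topology
open scoped ComplexConjugate

namespace Pool.Agent.U427.DG

open H353.E H353.F Pool.Agent.W169.HF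

section

variable {κ ϑ R ℓ G : ℝ} {f : ℂ → ℂ}

lemma Pf.ne (h : Pf κ ϑ R ℓ G f) (hG : 0 < G) {v : ℂ} (h1 : ϑ ≤ v.re) (h2 : v.re ≤ R)
    (h3 : |v.im| ≤ R) : f v ≠ 0 := by
  have h4 := h.low v h1 h2 h3
  have h5 : 0 < G * Real.exp (ℓ * v.re - κ * ℓ) := by positivity
  intro h0
  rw [h0, norm_zero] at h4
  linarith

lemma ld_diff (h : Pf κ ϑ R ℓ G f) (hG : 0 < G) (hf : Differentiable ℂ f) {v : ℂ} (h1 : ϑ ≤ v.re)
    (h2 : v.re ≤ R) (h3 : |v.im| ≤ R) : DifferentiableAt ℂ (logDeriv f) v := by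
  have hne := Pf.ne h hG h1 h2 h3
  have hd : Differentiable ℂ (deriv f) := (hf.contDiff (n := 2)).differentiable_deriv_two
  exact (hd v).div (hf v) hne

lemma ld_der (h : Pf κ ϑ R ℓ G f) (hG : 0 < G) (hf : Differentiable ℂ f) {v : ℂ} {ρ : ℝ} (hρ : 0 < ρ)
    (h1 : ϑ + ρ ≤ v.re) (h2 : v.re + ρ ≤ R) (h3 : |v.im| + ρ ≤ R) :
    ‖deriv (logDeriv f) v‖ ≤ κ * ℓ / ρ := by
  have hball : ∀ z ∈ Metric.closedBall v ρ, ϑ ≤ z.re ∧ z.re ≤ R ∧ |z.im| ≤ R := by
    intro z hz
    rw [Metric.mem_closedBall, dist_eq_norm] at hz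
    have h4 := (Complex.abs_re_le_norm (z - v)).trans hz
    have h5 := (Complex.abs_im_le_norm (z - v)).trans hz
    rw [sub_re, abs_le] at h4
    rw [sub_im] at h5
    refine ⟨by linarith, by linarith, ?_⟩
    have h6 : |z.im| ≤ |v.im| + |z.im - v.im| := by
      have := abs_add_le v.im (z.im - v.im)
      rwa [add_sub_cancel] at this
    linarith
  have e : deriv (logDeriv f) v = deriv (fun z => logDeriv f z - ℓ) v := by rw [deriv_sub_const]
  rw [e]
  have hdc : DiffContOnCl ℂ (fun z => logDeriv f z - ℓ) (Metric.ball v ρ) := by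
    apply DifferentiableOn.diffContOnCl
    rw [closure_ball v hρ.ne']
    intro z hz
    obtain ⟨a, b, c⟩ := hball z hz
    exact ((ld_diff h hG hf a b c).sub_const _).differentiableWithinAt
  exact Complex.norm_deriv_le_of_forall_mem_sphere_norm_le hρ hdc fun z hz => by
    obtain ⟨a, b, c⟩ := hball z (Metric.sphere_subset_closedBall hz)
    exact h.der z a b c

end

/-- the forward local theorem -/
theorem fwd_loc {ϑ g X : ℝ} (hϑ : 0 ≤ ϑ) (hg : 0 < g) (hg1 : g ≤ 1) (hX : 1 ≤ X) :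
    ∃ κ R ℓ0 : ℝ, 0 < κ ∧ 1 ≤ R ∧ ∀ (ℓ G y : ℝ) (Λ : ℂ → ℂ) (n : ℕ), ℓ0 ≤ ℓ → Differentiable ℂ Λ →
      (∃ ε : ℂ, ‖ε‖ = 1 ∧ ∀ s : ℂ, Λ s = ε * conj (Λ (1 - conj s))) → 0 < G →
      Pf κ ϑ R ℓ G (fun u => Λ (1 / 2 + (y : ℂ) * I + u)) →
      (ϑ + g) * ℓ ≤ n → (n : ℝ) ≤ X * ℓ →
      ∀ s : ℂ, s.im = y → |s.re - 1 / 2| ≤ 2 → iteratedDeriv n Λ s = 0 →
        s.re = 1 / 2 ∧ iteratedDeriv (n + 1) Λ s ≠ 0 := by
  obtain ⟨δ, hδd⟩ : ∃ δ : ℝ, δ = g / (4 * X) := ⟨_, rfl⟩
  have hX0 : 0 < X := by linarith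
  have hδ : 0 < δ := by rw [hδd]; positivity
  have hδX : δ * X = g / 4 := by rw [hδd]; field_simp
  have hδ4 : δ ≤ 1 / 4 := by
    rw [hδd, div_le_iff₀ (by positivity)]
    linarith
  obtain ⟨κL, hκL⟩ : ∃ κL : ℝ, κL = δ / 1000000 := ⟨_, rfl⟩
  have hκL0 : 0 < κL := by rw [hκL]; positivity
  obtain ⟨X', hX'⟩ : ∃ X' : ℝ, X' = 2 / g := ⟨_, rfl⟩
  have hX'0 : 0 < X' := by rw [hX']; positivity
  obtain ⟨R, hR⟩ : ∃ R : ℝ, R = X * (X' + 2) + X * 2 + 1 := ⟨_, rfl⟩
  refine ⟨κL * δ, R, (1000000000000 + 10000 / δ ^ 2) / g, by positivity, by rw [hR]; nlinarith, ?_⟩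
  intro ℓ G y Λ n hℓ hΛ hfe hG hP hn1 hn2 s hsy hsx hz
  have hℓ1 : 1000000000000 + 10000 / δ ^ 2 ≤ g * ℓ := by
    rw [div_le_iff₀ hg] at hℓ
    linarith
  have h0 : (0 : ℝ) ≤ 10000 / δ ^ 2 := by positivity
  have hℓ0 : 0 < ℓ := by
    by_contra hcon
    push Not at hcon
    nlinarith
  have hgn : g * ℓ ≤ n := by nlinarith
  have hn0 : (0 : ℝ) < n := by linarith
  obtain ⟨w0, hw0d⟩ : ∃ w0 : ℝ, w0 = n / ℓ := ⟨_, rfl⟩
  have hwl : w0 * ℓ = n := by rw [hw0d]; field_simp
  have hw1 : ϑ + g ≤ w0 := by rw [hw0d, le_div_iff₀ hℓ0]; exact hn1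
  have hw2 : w0 ≤ X := by rw [hw0d, div_le_iff₀ hℓ0]; exact hn2
  have hw0 : 0 < w0 := by linarith
  have hw0c : (w0 : ℂ) ≠ 0 := by exact_mod_cast hw0.ne'
  have hw0δ : w0 * δ ≤ g / 4 := by
    calc w0 * δ ≤ X * δ := mul_le_mul_of_nonneg_right hw2 hδ.le
      _ = g / 4 := by rw [mul_comm]; exact hδX
  obtain ⟨f, hf⟩ : ∃ f : ℂ → ℂ, f = fun u => Λ (1 / 2 + (y : ℂ) * I + u) := ⟨_, rfl⟩
  rw [← hf] at hP
  have hfd : Differentiable ℂ f := by rw [hf]; fun_prop
  have hcc : ∀ u : ℂ, (1 / 2 : ℂ) + w0 * (cc (y / w0) + u - 1 / 2) = 1 / 2 + y * I + w0 * u := by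
    intro u
    unfold cc
    push_cast
    field_simp
    ring
  have hre : ∀ u : ℂ, ((w0 : ℂ) * u).re = w0 * u.re := fun u => Complex.re_ofReal_mul _ _
  have him : ∀ u : ℂ, ((w0 : ℂ) * u).im = w0 * u.im := fun u => Complex.im_ofReal_mul _ _
  have hregion : ∀ u : ℂ, 1 - δ ≤ u.re → u.re ≤ X' + 2 → |u.im| ≤ 2 →
      ϑ + g / 2 ≤ ((w0 : ℂ) * u).re ∧ ((w0 : ℂ) * u).re + g / 4 ≤ R ∧ |((w0 : ℂ) * u).im| + g / 4 ≤ R := by
    intro u h1 h2 h3
    rw [hre, him, abs_mul, abs_of_pos hw0]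
    refine ⟨?_, ?_, ?_⟩
    · have : w0 * (1 - δ) ≤ w0 * u.re := mul_le_mul_of_nonneg_left h1 hw0.le
      nlinarith
    · have : w0 * u.re ≤ X * (X' + 2) := by
        calc w0 * u.re ≤ w0 * (X' + 2) := mul_le_mul_of_nonneg_left h2 hw0.le
          _ ≤ _ := mul_le_mul_of_nonneg_right hw2 (by linarith)
      rw [hR]
      nlinarith
    · have : w0 * |u.im| ≤ X * 2 := mul_le_mul hw2 h3 (abs_nonneg _) hX0.le
      rw [hR]
      nlinarith
  have hκ1 : κL * δ * ℓ ≤ κL * n := by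
    have h1 : δ * ℓ ≤ n := by
      have h2 : δ ≤ g := by
        have : δ ≤ δ * X * 4 := by nlinarith
        rw [hδX] at this
        linarith
      exact (mul_le_mul_of_nonneg_right h2 hℓ0.le).trans hgn
    calc κL * δ * ℓ = κL * (δ * ℓ) := by ring
      _ ≤ _ := mul_le_mul_of_nonneg_left h1 hκL0.le
  have hL : Loc (fun s => Λ (1 / 2 + w0 * (s - 1 / 2))) (fun u => w0 * logDeriv f (w0 * u)) n δ κL G
      (y / w0) X' :=
    { diff := by fun_prop
      fe := by
        obtain ⟨ε, hε, h⟩ := hfe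
        refine ⟨ε, hε, fun s => ?_⟩
        rw [h]
        congr 3
        simp only [map_add, map_mul, map_sub, Complex.conj_ofReal, map_div₀, map_one, map_ofNat]
        ring
      der := fun u h1 h2 h3 => by
        obtain ⟨a, b, c⟩ := hregion u h1 h2 h3
        have hne := Pf.ne hP hG (v := (w0 : ℂ) * u) (by linarith) (by linarith) (by linarith)
        have e1 : Λ (1 / 2 + w0 * (cc (y / w0) + u - 1 / 2)) = f (w0 * u) := by rw [hcc, hf]
        have h5 : HasDerivAt Λ (deriv f (w0 * u)) (1 / 2 + w0 * (cc (y / w0) + u - 1 / 2)) := by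
          have e2 : deriv f (w0 * u) = deriv Λ (1 / 2 + w0 * (cc (y / w0) + u - 1 / 2)) := by
            rw [hcc, hf, deriv_comp_const_add]
          rw [e2]
          exact (hΛ _).hasDerivAt
        have h6 : HasDerivAt (fun s : ℂ => (1 / 2 : ℂ) + w0 * (s - 1 / 2)) w0 (cc (y / w0) + u) := by
          have := (((hasDerivAt_id (cc (y / w0) + u)).sub_const (1 / 2 : ℂ)).const_mul (w0 : ℂ)).const_add
            (1 / 2 : ℂ)
          simpa using this
        have h7 := h5.comp (cc (y / w0) + u) h6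
        have e3 : deriv f (w0 * u) * w0 =
            Λ (1 / 2 + w0 * (cc (y / w0) + u - 1 / 2)) * (w0 * logDeriv f (w0 * u)) := by
          rw [e1, logDeriv_apply]
          field_simp
        rw [e3] at h7
        exact h7
      dP := fun u h1 h2 h3 => by
        obtain ⟨a, b, c⟩ := hregion u h1 h2 h3
        have h4 := hP.der ((w0 : ℂ) * u) (by linarith) (by linarith) (by linarith)
        have e : (w0 : ℂ) * logDeriv f (w0 * u) - n = w0 * (logDeriv f (w0 * u) - ℓ) := by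
          have : (n : ℂ) = (w0 : ℂ) * ℓ := by rw [← Complex.ofReal_natCast, ← hwl]; push_cast; ring
          rw [this]; ring
        rw [e, norm_mul, Complex.norm_real, Real.norm_eq_abs, abs_of_pos hw0]
        calc w0 * ‖logDeriv f (w0 * u) - ℓ‖ ≤ w0 * (κL * δ * ℓ) := mul_le_mul_of_nonneg_left h4 hw0.le
          _ = κL * δ * (w0 * ℓ) := by ring
          _ = κL * δ * n := by rw [hwl]
          _ ≤ κL * 1 * n := by gcongr; linarith
          _ = κL * n := by ring
      ddP := fun u h1 h2 h3 => by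
        obtain ⟨a, b, c⟩ := hregion u h1 h2 h3
        have hd := ld_diff hP hG hfd (v := (w0 : ℂ) * u) (by linarith) (by linarith) (by linarith)
        have h4 := ld_der hP hG hfd (v := (w0 : ℂ) * u) (ρ := g / 4) (by positivity) (by linarith)
          (by linarith) (by linarith)
        refine ⟨w0 * (deriv (logDeriv f) (w0 * u) * w0), ?_, ?_⟩
        · have h6 : HasDerivAt (fun u : ℂ => (w0 : ℂ) * u) w0 u := by
            simpa using (hasDerivAt_id u).const_mul (w0 : ℂ)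
          exact (hd.hasDerivAt.comp u h6).const_mul _
        · rw [norm_mul, norm_mul, Complex.norm_real, Real.norm_eq_abs, abs_of_pos hw0]
          calc w0 * (‖deriv (logDeriv f) (w0 * u)‖ * w0) ≤ w0 * (κL * δ * ℓ / (g / 4) * w0) := by gcongr
            _ = κL * (w0 * ℓ) * (w0 * δ) / (g / 4) := by ring
            _ ≤ κL * (w0 * ℓ) * (g / 4) / (g / 4) := by
              have : 0 ≤ κL * (w0 * ℓ) := by positivity
              gcongr
            _ = κL * (w0 * ℓ) := by field_simp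
            _ = κL * n := by rw [hwl]
      up := fun u h1 h2 => by
        have h3 := hP.upp ((w0 : ℂ) * u) (by
          rw [hre, abs_mul, abs_of_pos hw0, hR]
          have : w0 * |u.re| ≤ X * (X' + 2) := mul_le_mul hw2 h1 (abs_nonneg _) hX0.le
          linarith) (by
          rw [him, abs_mul, abs_of_pos hw0, hR]
          have : w0 * |u.im| ≤ X * 2 := mul_le_mul hw2 h2 (abs_nonneg _) hX0.le
          nlinarith)
        rw [hcc]
        have e : f (w0 * u) = Λ (1 / 2 + y * I + w0 * u) := by rw [hf]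
        rw [← e]
        refine h3.trans (mul_le_mul_of_nonneg_left (Real.exp_le_exp.2 ?_) hG.le)
        have h4 : ℓ * max |((w0 : ℂ) * u).re| ϑ ≤ n * max |u.re| (1 - δ) := by
          rw [← hwl, mul_comm w0 ℓ, mul_assoc]
          refine mul_le_mul_of_nonneg_left ?_ hℓ0.le
          rw [hre, abs_mul, abs_of_pos hw0]
          refine max_le (mul_le_mul_of_nonneg_left (le_max_left _ _) hw0.le) ?_
          have h5 : ϑ ≤ w0 * (1 - δ) := by nlinarith
          exact h5.trans (mul_le_mul_of_nonneg_left (le_max_right _ _) hw0.le)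
        linarith
      lo := fun x h1 h2 => by
        have h3 := hP.low ((w0 : ℂ) * ((x + 1 : ℝ) : ℂ)) (by
          rw [hre, ofReal_re]; nlinarith) (by
          rw [hre, ofReal_re, hR]
          have : w0 * (x + 1) ≤ X * (X' + 2) := mul_le_mul hw2 (by linarith) (by linarith) hX0.le
          linarith) (by
          rw [him, ofReal_im, mul_zero, abs_zero, hR]
          positivity)
        rw [hcc]
        have e : f (w0 * ((x + 1 : ℝ) : ℂ)) = Λ (1 / 2 + y * I + w0 * ((x + 1 : ℝ) : ℂ)) := by rw [hf]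
        rw [← e]
        refine le_trans (mul_le_mul_of_nonneg_left (Real.exp_le_exp.2 ?_) hG.le) h3
        rw [hre, ofReal_re]
        have : ℓ * (w0 * (x + 1)) = n * (x + 1) := by rw [← hwl]; ring
        linarith
      hG := hG
      hδ := hδ
      hδ' := by linarith
      hκ := hκL0.le
      hκ' := hκL.le
      hX := hX'0.le
      hn := by linarith
      hnδ := by linarith }
  obtain ⟨s', hs'⟩ : ∃ s' : ℂ, s' = 1 / 2 + (s - 1 / 2) / w0 := ⟨_, rfl⟩
  have hback : (1 / 2 : ℂ) + w0 * (s' - 1 / 2) = s := by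
    rw [hs']
    field_simp
    ring
  have hs're : s'.re - 1 / 2 = (s.re - 1 / 2) / w0 := by
    rw [hs', add_re, Complex.div_ofReal_re, sub_re]
    simp
  have hs'im : s'.im = y / w0 := by
    rw [hs', add_im, Complex.div_ofReal_im, sub_im]
    simp [hsy]
  have hz' : iteratedDeriv n (fun s => Λ (1 / 2 + w0 * (s - 1 / 2))) s' = 0 := by
    rw [scale_deriv hΛ, hback, hz, mul_zero]
  have hfin := hL.zeros hs'im (by
    rw [hs're, abs_div, abs_of_pos hw0, div_le_iff₀ hw0, hX']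
    calc |s.re - 1 / 2| ≤ 2 := hsx
      _ = 2 / g * g := by field_simp
      _ ≤ 2 / g * w0 := by
        refine mul_le_mul_of_nonneg_left (by linarith) (by positivity)) hz'
  refine ⟨?_, fun hz1 => hfin.2 ?_⟩
  · have h5 := hfin.1
    rw [h5, sub_self] at hs're
    have : s.re - 1 / 2 = 0 := by
      rcases div_eq_zero_iff.mp hs're.symm with h | h
      · exact h
      · exact absurd h hw0.ne'
    linarith
  · rw [scale_deriv hΛ, hback, hz1, mul_zero]

end Pool.Agent.U427.DG
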